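import Mathlib

/-! The Hilbert space part: few orthonormal vectors are close to the range of a small operator. -/

set_option autoImplicit false

open scoped BigOperators InnerProductSpace

namespace Pool.Agent.Zk93.Loc

variable {E : Type*} [NormedAddCommGroup E] [InnerProductSpace ℂ E]

/-- the dual form of an operator bound -/
theorem dual_bd {α : Type*} [Fintype α] (u : α → E) (B : ℝ) (hB : 0 ≤ B)
    (hu : ∀ c : α → ℂ, ‖∑ a, c a • u a‖ ^ 2 ≤ B * ∑ a, ‖c a‖ ^ 2) (φ : E) :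
    ∑ a, ‖⟪φ, u a⟫_ℂ‖ ^ 2 ≤ B * ‖φ‖ ^ 2 := by
  set S : ℝ := ∑ a, ‖⟪φ, u a⟫_ℂ‖ ^ 2 with hS
  have hS0 : 0 ≤ S := Finset.sum_nonneg fun _ _ => by positivity
  set c : α → ℂ := fun a => (starRingEnd ℂ) ⟪φ, u a⟫_ℂ with hc
  have h1 : ⟪φ, ∑ a, c a • u a⟫_ℂ = (S : ℂ) := by
    rw [inner_sum, hS]
    push_cast
    refine Finset.sum_congr rfl fun a _ => ?_
    rw [inner_smul_right, hc]
    simp only
    rw [mul_comm, Complex.mul_conj, Complex.normSq_eq_norm_sq]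
    push_cast
    ring
  have h2 : S ≤ ‖φ‖ * ‖∑ a, c a • u a‖ := by
    have := norm_inner_le_norm (𝕜 := ℂ) φ (∑ a, c a • u a)
    rw [h1, Complex.norm_real, Real.norm_eq_abs, abs_of_nonneg hS0] at this
    exact this
  have h3 : ‖∑ a, c a • u a‖ ^ 2 ≤ B * S := by
    refine (hu c).trans (le_of_eq ?_)
    rw [hS]
    congr 1
    refine Finset.sum_congr rfl fun a _ => ?_
    rw [hc]
    simp
  have h4 : S ^ 2 ≤ ‖φ‖ ^ 2 * (B * S) := by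
    calc S ^ 2 ≤ (‖φ‖ * ‖∑ a, c a • u a‖) ^ 2 := pow_le_pow_left₀ hS0 h2 2
      _ = ‖φ‖ ^ 2 * ‖∑ a, c a • u a‖ ^ 2 := by ring
      _ ≤ _ := by gcongr
  rcases hS0.lt_or_eq with h | h
  · have h5 : S * S ≤ S * (B * ‖φ‖ ^ 2) := by nlinarith
    exact le_of_mul_le_mul_left h5 h
  · rw [← h]
    positivity

theorem sq_split (x y : ℂ) (s : ℝ) (hs : 0 < s) :
    ‖x + y‖ ^ 2 ≤ (1 + s) * ‖x‖ ^ 2 + (1 + 1 / s) * ‖y‖ ^ 2 := by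
  have h1 := pow_le_pow_left₀ (norm_nonneg _) (norm_add_le x y) 2
  refine h1.trans ?_
  have h2 : 0 ≤ (s * ‖x‖ - ‖y‖) ^ 2 / s := by positivity
  have h3 : (s * ‖x‖ - ‖y‖) ^ 2 / s = s * ‖x‖ ^ 2 - 2 * ‖x‖ * ‖y‖ + 1 / s * ‖y‖ ^ 2 := by
    field_simp
    ring
  rw [h3] at h2
  nlinarith

/-- the number of the orthonormal vectors -/
theorem abs_main {α : Type*} [Fintype α] {m : ℕ} (u u' : α → E) (ψ ψ' : Fin m → E)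
    (hψ : Orthonormal ℂ ψ) (B τ p s : ℝ) (hB : 0 ≤ B) (hs : 0 < s)
    (hu : ∀ c : α → ℂ, ‖∑ a, c a • u a‖ ^ 2 ≤ B * ∑ a, ‖c a‖ ^ 2)
    (h1 : ∀ j a, ⟪ψ j, u a⟫_ℂ = ⟪ψ j, u' a⟫_ℂ + ⟪ψ' j, u a⟫_ℂ)
    (h2 : ∀ j, ‖ψ' j‖ ^ 2 ≤ τ) (h3 : ∀ j, p ≤ ∑ a, ‖⟪ψ j, u a⟫_ℂ‖ ^ 2) :
    (m : ℝ) * (p - (1 + 1 / s) * (B * τ)) ≤ (1 + s) * ∑ a, ‖u' a‖ ^ 2 := by
  have h4 : ∀ j, p - (1 + 1 / s) * (B * τ) ≤ (1 + s) * ∑ a, ‖⟪ψ j, u' a⟫_ℂ‖ ^ 2 := by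
    intro j
    have h5 := dual_bd u B hB hu (ψ' j)
    have h6 : ∑ a, ‖⟪ψ j, u a⟫_ℂ‖ ^ 2 ≤ (1 + s) * ∑ a, ‖⟪ψ j, u' a⟫_ℂ‖ ^ 2 +
        (1 + 1 / s) * ∑ a, ‖⟪ψ' j, u a⟫_ℂ‖ ^ 2 := by
      rw [Finset.mul_sum, Finset.mul_sum, ← Finset.sum_add_distrib]
      refine Finset.sum_le_sum fun a _ => ?_
      rw [h1 j a]
      exact sq_split _ _ s hs
    have h7 : ∑ a, ‖⟪ψ' j, u a⟫_ℂ‖ ^ 2 ≤ B * τ := h5.trans (by
      have := h2 j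
      gcongr)
    have h8 : (1 + 1 / s) * ∑ a, ‖⟪ψ' j, u a⟫_ℂ‖ ^ 2 ≤ (1 + 1 / s) * (B * τ) := by gcongr
    have h9 := h3 j
    linarith
  have h10 : ∑ _j : Fin m, (p - (1 + 1 / s) * (B * τ)) ≤
      ∑ j : Fin m, (1 + s) * ∑ a, ‖⟪ψ j, u' a⟫_ℂ‖ ^ 2 := Finset.sum_le_sum fun j _ => h4 j
  rw [Finset.sum_const, Finset.card_univ, Fintype.card_fin, nsmul_eq_mul, ← Finset.mul_sum,
    Finset.sum_comm] at h10
  refine h10.trans ?_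
  gcongr with a _
  exact hψ.sum_inner_products_le (u' a)

end Pool.Agent.Zk93.Loc
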